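import Pool.Agent.THX.Stmts

/-!
# Squad THX, module GN2: a small combination of the coordinates generates the field
-/

namespace Pool.Agent.THX.H27

open NumberField Module Polynomial

noncomputable section

/-- Small vectors outside finitely many hyperplanes. -/
theorem avoid {A : Type} (s : Finset A) (r : ℕ) (v : A → Fin r → ℂ)
    (hv : ∀ a ∈ s, ∃ i, v a i ≠ 0) : ∃ d : Fin r → ℕ, (∀ i, d i ≤ (s.card * r + 1) ^ r) ∧
      ∀ a ∈ s, ∑ i, (d i : ℂ) * v a i ≠ 0 := by
  classical
  let f : A → ℂ[X] := fun a => ∑ i : Fin r, C (v a i) * X ^ (i : ℕ)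
  have hf : ∀ a ∈ s, f a ≠ 0 := by
    intro a ha h0
    obtain ⟨i, hi⟩ := hv a ha
    apply hi
    have h1 := congrArg (fun p => p.coeff (i : ℕ)) h0
    simp only [f, finsetSum_coeff, coeff_C_mul, coeff_X_pow, coeff_zero] at h1
    rw [Finset.sum_eq_single i] at h1
    · simpa using h1
    · intro b _ hb
      rw [if_neg, mul_zero]
      intro h
      exact hb (Fin.ext h.symm)
    · intro h
      exact absurd (Finset.mem_univ _) h
  have hdeg : ∀ a, (f a).natDegree ≤ r := by
    intro a
    apply natDegree_sum_le_of_forall_le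
    intro i _
    exact (natDegree_C_mul_X_pow_le _ _).trans i.2.le
  have hF : ∏ a ∈ s, f a ≠ 0 := Finset.prod_ne_zero_iff.mpr hf
  have hFd : (∏ a ∈ s, f a).natDegree ≤ s.card * r := by
    refine (natDegree_prod_le _ _).trans ?_
    rw [← smul_eq_mul]
    exact Finset.sum_le_card_nsmul _ _ _ fun a _ => hdeg a
  obtain ⟨u, hu, hu0⟩ : ∃ u : ℕ, u ≤ s.card * r ∧ (∏ a ∈ s, f a).eval (u : ℂ) ≠ 0 := by
    by_contra hcon
    push Not at hcon
    apply hF
    apply eq_zero_of_natDegree_lt_card_of_eval_eq_zero' _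
      ((Finset.range (s.card * r + 1)).image fun u : ℕ => (u : ℂ))
    · intro x hx
      obtain ⟨u, hu, rfl⟩ := Finset.mem_image.mp hx
      exact hcon u (by have := Finset.mem_range.mp hu; omega)
    · rw [Finset.card_image_of_injective _ Nat.cast_injective, Finset.card_range]
      omega
  refine ⟨fun i => u ^ (i : ℕ), ?_, ?_⟩
  · intro i
    calc u ^ (i : ℕ) ≤ (s.card * r + 1) ^ (i : ℕ) := Nat.pow_le_pow_left (by omega) _
      _ ≤ (s.card * r + 1) ^ r := Nat.pow_le_pow_right (by omega) i.2.le
  · intro a ha h0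
    apply hu0
    rw [eval_prod]
    apply Finset.prod_eq_zero ha
    simp only [f, eval_finsetSum, eval_mul, eval_C, eval_pow, eval_X]
    rw [← h0]
    refine Finset.sum_congr rfl fun i _ => ?_
    push_cast
    ring

/-- GN2 -/
theorem gn2 : Gn2Stmt := by
  classical
  intro n r hr
  refine ⟨(n * n * r + 1) ^ r, ?_⟩
  intro P K _ _ e x hdet
  -- the points are different
  have hne : ∀ s t : Fin n, s ≠ t → ∃ i, e s (x i : K) ≠ e t (x i : K) := by
    intro s t hst
    by_contra hcon
    push Not at hcon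
    apply hdet
    have hcol : ((s, ⟨0, hr⟩) : Fin n × Fin r) ≠ (t, ⟨0, hr⟩) := by
      intro h
      exact hst (Prod.mk.inj h).1
    apply Matrix.det_zero_of_column_eq hcol
    intro k
    unfold jac
    rw [Matrix.of_apply, Matrix.of_apply]
    have : (fun i => e s (x i : K)) = fun i => e t (x i : K) := funext hcon
    simp only [this]
  obtain ⟨d, hd1, hd2⟩ := avoid (Finset.univ.filter fun p : Fin n × Fin n => p.1 ≠ p.2) r
    (fun p i => e p.1 (x i : K) - e p.2 (x i : K)) (by
      intro p hp
      obtain ⟨i, hi⟩ := hne p.1 p.2 (Finset.mem_filter.mp hp).2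
      exact ⟨i, sub_ne_zero.mpr hi⟩)
  have hcard : (Finset.univ.filter fun p : Fin n × Fin n => p.1 ≠ p.2).card ≤ n * n := by
    refine (Finset.card_filter_le _ _).trans ?_
    rw [Finset.card_univ, Fintype.card_prod, Fintype.card_fin]
  refine ⟨d, fun i => (hd1 i).trans ?_, ?_⟩
  · exact Nat.pow_le_pow_left (by gcongr) _
  set y : 𝓞 K := ∑ i, (d i : 𝓞 K) * x i with hy
  have hey : ∀ t, e t (y : K) = ∑ i, (d i : ℂ) * e t (x i : K) := by
    intro t
    have h1 : (y : K) = ∑ i, (d i : K) * (x i : K) := by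
      rw [hy]
      push_cast
      rfl
    rw [h1, map_sum]
    refine Finset.sum_congr rfl fun i _ => ?_
    rw [map_mul, map_natCast]
  have hinj : Function.Injective fun t => e t (y : K) := by
    intro s t hst
    by_contra hne'
    apply hd2 (s, t) (Finset.mem_filter.mpr ⟨Finset.mem_univ _, hne'⟩)
    have h1 : e s (y : K) = e t (y : K) := hst
    rw [hey, hey] at h1
    simp only [mul_sub, Finset.sum_sub_distrib]
    rw [h1, sub_self]
  have hprim : IntermediateField.adjoin ℚ {(y : K)} = ⊤ := by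
    rw [Field.primitive_element_iff_algHom_eq_of_eval' ℚ ℂ (fun _ => IsAlgClosed.splits _)]
    intro φ ψ h
    have h1 : (φ : K →+* ℂ) (y : K) = (ψ : K →+* ℂ) (y : K) := h
    obtain ⟨s, hs⟩ := e.surjective (φ : K →+* ℂ)
    obtain ⟨t, ht⟩ := e.surjective (ψ : K →+* ℂ)
    rw [← hs, ← ht] at h1
    have h2 : s = t := hinj h1
    rw [h2, ht] at hs
    apply AlgHom.ext
    intro z
    exact (DFunLike.congr_fun hs z).symm
  refine ⟨hprim, ?_⟩
  have hint : IsIntegral ℤ (y : K) := y.2
  have hfin : finrank ℚ K = n := by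
    rw [← NumberField.Embeddings.card K ℂ, ← Fintype.card_congr e, Fintype.card_fin]
  have hmin : minpoly ℚ (y : K) = (minpoly ℤ (y : K)).map (algebraMap ℤ ℚ) :=
    minpoly.isIntegrallyClosed_eq_field_fractions' ℚ hint
  have hdeg : (minpoly ℤ (y : K)).natDegree = n := by
    have h1 : (minpoly ℚ (y : K)).natDegree = n := by
      rw [← hfin]
      exact (Field.primitive_element_iff_minpoly_natDegree_eq ℚ (y : K)).mp hprim
    rw [hmin, (minpoly.monic hint).natDegree_map] at h1
    exact h1
  have hmon : ((minpoly ℤ (y : K)).map (Int.castRingHom ℂ)).Monic := (minpoly.monic hint).map _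
  have hprod : (∏ t, (X - C (∑ i, (d i : ℂ) * e t (x i : K)))) =
      ∏ t, (X - C (e t (y : K))) := by
    refine Finset.prod_congr rfl fun t _ => ?_
    rw [hey]
  rw [hprod]
  apply eq_of_monic_of_dvd_of_natDegree_le (monic_prod_of_monic _ _ fun t _ => monic_X_sub_C _) hmon
  · apply Finset.prod_dvd_of_coprime
    · intro s _ t _ hst
      exact pairwise_coprime_X_sub_C hinj hst
    · intro t _
      rw [dvd_iff_isRoot, IsRoot.def, eval_map]
      have h1 : (algebraMap ℤ K) = Int.castRingHom K := RingHom.ext_int _ _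
      have h2 : ((e t).comp (algebraMap ℤ K)) = Int.castRingHom ℂ := RingHom.ext_int _ _
      rw [← h2, ← hom_eval₂]
      have h3 : eval₂ (algebraMap ℤ K) (y : K) (minpoly ℤ (y : K)) = 0 := minpoly.aeval ℤ (y : K)
      rw [h3, map_zero]
  · rw [(minpoly.monic hint).natDegree_map, hdeg, natDegree_prod_of_monic _ _
      fun t _ => monic_X_sub_C _]
    simp

end

end Pool.Agent.THX.H27
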