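import Pool.Agent.THX.Stmts

/-!
# Squad THX, module GST: the number of fields
-/

namespace Pool.Agent.THX.H27

open NumberField Module Polynomial

noncomputable section

theorem coe_aeval {r : ℕ} (X : Fin r → OO) (Q : MvPolynomial (Fin r) ℤ) :
    ((MvPolynomial.aeval X Q : OO) : ℂ) = MvPolynomial.aeval (fun i => (X i : ℂ)) Q :=
  (MvPolynomial.aeval_algebraMap_apply ℂ X Q).symm

theorem coe_jac {n r : ℕ} (P : Fin n × Fin r → MvPolynomial (Fin r) ℤ) (X : Fin n → Fin r → OO) :
    ((jac P X).det : ℂ) = (jac P fun t i => (X t i : ℂ)).det := by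
  have h := (algebraMap OO ℂ).map_det (jac P X)
  refine h.trans ?_
  refine congrArg Matrix.det (Matrix.ext fun a b => ?_)
  exact coe_aeval _ _

/-- GST -/
theorem gst (sbs : SbsStmt) (her : HerStmt) (cho : ChoStmt) (trc : TrcStmt) (dsq : DsqStmt)
    (cnt : CntStmt) (gn2 : Gn2Stmt) : GstStmt := by
  classical
  intro n r hn hr hnr ε hε
  obtain ⟨P, z, hP, hz⟩ := her n r hnr
  obtain ⟨Cs, hCs, hb⟩ := sbs n hn
  obtain ⟨B, hB⟩ := cho n r P z hn hz
  obtain ⟨B', hB'⟩ := gn2 n r hr
  obtain ⟨C', hC'⟩ := cnt n r (2 * r + 1) P hn hP (n * ε) (by positivity)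
  have hn1 : (1 : ℝ) ≤ n := by exact_mod_cast hn
  obtain ⟨A, hAdef⟩ : ∃ A : ℝ, A = n * (B + 1) * Cs := ⟨_, rfl⟩
  have hA : 1 ≤ A := by
    rw [hAdef]
    have h1 : (1 : ℝ) ≤ n * (B + 1) := by
      have : (0 : ℝ) ≤ B := Nat.cast_nonneg B
      nlinarith
    nlinarith
  obtain ⟨E, hE⟩ : ∃ E : ℝ, E = ((2 * r + 1 : ℕ) : ℝ) * r * n + n * ε := ⟨_, rfl⟩
  rw [← hE] at hC'
  refine ⟨C' * A ^ E * ((B' : ℝ) + 1) ^ r, fun N hN => ?_⟩
  have hN0 : (0 : ℝ) ≤ N := by linarith
  obtain ⟨R, hR⟩ : ∃ R : ℝ, R = A * N ^ ((1 : ℝ) / n) := ⟨_, rfl⟩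
  have hNn : 1 ≤ N ^ ((1 : ℝ) / n) := Real.one_le_rpow hN (by positivity)
  have hR1 : 1 ≤ R := by
    rw [hR]
    nlinarith
  obtain ⟨hfin, hcard⟩ := hC' R hR1
  let Φ : (Fin n → Fin r → OO) × (Fin r → Fin (B' + 1)) → ℂ[X] := fun p =>
    ∏ t, (X - C (∑ i, ((p.2 i : ℕ) : ℂ) * (p.1 t i : ℂ)))
  let S : Set ℤ[X] := {Q | Q.Monic ∧ Q.natDegree = n ∧
    Q.map (Int.castRingHom ℂ) ∈ Φ '' (XS n r P R ×ˢ Set.univ)}
  have hpf : (XS n r P R ×ˢ (Set.univ : Set (Fin r → Fin (B' + 1)))).Finite :=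
    hfin.prod Set.finite_univ
  have hT : (Φ '' (XS n r P R ×ˢ Set.univ)).Finite := hpf.image _
  have hTc : (Φ '' (XS n r P R ×ˢ Set.univ)).ncard ≤ (XS n r P R).ncard * (B' + 1) ^ r := by
    refine (Set.ncard_image_le hpf).trans (le_of_eq ?_)
    rw [Set.ncard_prod, Set.ncard_univ, Nat.card_eq_fintype_card, Fintype.card_fun,
      Fintype.card_fin, Fintype.card_fin]
  have hinj : Function.Injective (Polynomial.map (Int.castRingHom ℂ)) :=
    map_injective _ Int.cast_injective
  have hSsub : (Polynomial.map (Int.castRingHom ℂ)) '' S ⊆ Φ '' (XS n r P R ×ˢ Set.univ) := by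
    rintro _ ⟨Q, hQ, rfl⟩
    exact hQ.2.2
  have hSfin : S.Finite := Set.Finite.of_finite_image (hT.subset hSsub) hinj.injOn
  have hSc : S.ncard ≤ (XS n r P R).ncard * (B' + 1) ^ r := by
    rw [← Set.ncard_image_of_injective S hinj]
    exact (Set.ncard_le_ncard hSsub hT).trans hTc
  refine ⟨S, hSfin, ?_, fun Q hQ => ⟨hQ.1, hQ.2.1⟩, ?_⟩
  · have h1 : (S.ncard : ℝ) ≤ (XS n r P R).ncard * ((B' : ℝ) + 1) ^ r := by exact_mod_cast hSc
    have h2 : ((XS n r P R).ncard : ℝ) * ((B' : ℝ) + 1) ^ r ≤ (C' * R ^ E) * ((B' : ℝ) + 1) ^ r := by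
      gcongr
    have h3 : R ^ E = A ^ E * N ^ ((r : ℝ) * (2 * r + 1) + ε) := by
      rw [hR, Real.mul_rpow (by linarith) (by linarith), ← Real.rpow_mul hN0]
      congr 2
      rw [hE]
      push_cast
      field_simp
    rw [h3] at h2
    calc (S.ncard : ℝ) ≤ _ := h1
      _ ≤ _ := h2
      _ = _ := by ring
  · intro K _ _ hK hdisc
    obtain ⟨b, hb1, hb2⟩ := hb K hK
    have hcardE : Fintype.card (K →+* ℂ) = n := by rw [NumberField.Embeddings.card, hK]
    let e : Fin n ≃ (K →+* ℂ) := (Fintype.equivFinOfCardEq hcardE).symm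
    obtain ⟨c, hc1, hc2⟩ := hB K hK e b hb1
    let x : Fin r → 𝓞 K := fun i => ∑ k, (c i k : 𝓞 K) * b k
    have hx : ∀ t i, e t (x i : K) = ∑ k, (c i k : ℂ) * e t (b k : K) := by
      intro t i
      have h1 : (x i : K) = ∑ k, (c i k : K) * (b k : K) := by
        simp only [x]
        push_cast
        rfl
      rw [h1, map_sum]
      refine Finset.sum_congr rfl fun k _ => ?_
      rw [map_mul, map_natCast]
    have hdet : (jac P fun t i => e t (x i : K)).det ≠ 0 := by
      have h1 : (fun t i => e t (x i : K)) = fun t i => ∑ k, (c i k : ℂ) * e t (b k : K) := by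
        funext t i
        exact hx t i
      rw [h1]
      exact hc2
    obtain ⟨d, hd1, hd2, hd3⟩ := hB' P K e x hdet
    let X' : Fin n → Fin r → OO := fun t i => ⟨e t (x i : K), map_isIntegral_int (e t) (x i).2⟩
    have hX' : ∀ t i, (X' t i : ℂ) = e t (x i : K) := fun _ _ => rfl
    have hX : X' ∈ XS n r P R := by
      refine ⟨?_, ?_, ?_, ?_, ?_⟩
      · intro t i
        rw [hX', hx]
        have h1 : ∀ k, ‖(c i k : ℂ) * e t (b k : K)‖ ≤ (B : ℝ) * (Cs * N ^ ((1 : ℝ) / n)) := by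
          intro k
          rw [norm_mul, Complex.norm_natCast]
          have h2 := hb2 k (e t)
          have h3 : |(discr K : ℝ)| ^ ((1 : ℝ) / n) ≤ N ^ ((1 : ℝ) / n) :=
            Real.rpow_le_rpow (abs_nonneg _) hdisc (by positivity)
          have h4 : (c i k : ℝ) ≤ B := by exact_mod_cast hc1 i k
          have h5 : ‖e t (b k : K)‖ ≤ Cs * N ^ ((1 : ℝ) / n) :=
            h2.trans (by gcongr)
          exact mul_le_mul h4 h5 (norm_nonneg _) (Nat.cast_nonneg _)
        refine (norm_sum_le _ _).trans ?_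
        refine (Finset.sum_le_sum fun k _ => h1 k).trans ?_
        rw [Finset.sum_const, Finset.card_univ, Fintype.card_fin, nsmul_eq_mul, hR, hAdef]
        have h6 : (0 : ℝ) ≤ n * (Cs * N ^ ((1 : ℝ) / n)) := by positivity
        nlinarith
      · intro t i
        have hint : IsIntegral ℤ (x i : K) := (x i).2
        have hmin : minpoly ℚ (x i : K) = (minpoly ℤ (x i : K)).map (algebraMap ℤ ℚ) :=
          minpoly.isIntegrallyClosed_eq_field_fractions' ℚ hint
        have hle : (minpoly ℤ (x i : K)).natDegree ≤ n := by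
          have h1 := minpoly.natDegree_le (A := ℚ) (x i : K)
          rwa [hK, hmin, (minpoly.monic hint).natDegree_map] at h1
        refine ⟨minpoly ℤ (x i : K) * Polynomial.X ^ (n - (minpoly ℤ (x i : K)).natDegree),
          (minpoly.monic hint).mul (monic_X_pow _), ?_, ?_⟩
        · rw [(minpoly.monic hint).natDegree_mul (monic_X_pow _), natDegree_X_pow]
          omega
        · rw [map_mul]
          have h2 : aeval (X' t i) (minpoly ℤ (x i : K)) = 0 := by
            apply Subtype.val_injective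
            have h3 : ((aeval (X' t i) (minpoly ℤ (x i : K)) : OO) : ℂ) =
                aeval (X' t i : ℂ) (minpoly ℤ (x i : K)) :=
              (aeval_algebraMap_apply ℂ (X' t i) (minpoly ℤ (x i : K))).symm
            refine h3.trans ?_
            rw [hX', aeval_def]
            have h4 : algebraMap ℤ ℂ = (e t).comp (algebraMap ℤ K) := RingHom.ext_int _ _
            rw [h4, ← hom_eval₂]
            have h5 : eval₂ (algebraMap ℤ K) (x i : K) (minpoly ℤ (x i : K)) = 0 :=
              minpoly.aeval ℤ (x i : K)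
            rw [h5, map_zero]
            rfl
          rw [h2, zero_mul]
      · intro a
        obtain ⟨T, hT'⟩ := trc n r (P a) K e x
        refine ⟨T, ?_⟩
        apply Subtype.val_injective
        have h1 : ((∑ t, MvPolynomial.aeval (X' t) (P a) : OO) : ℂ) =
            ∑ t, ((MvPolynomial.aeval (X' t) (P a) : OO) : ℂ) :=
          map_sum (algebraMap OO ℂ) _ _
        refine h1.trans ?_
        simp only [coe_aeval]
        refine hT'.trans ?_
        exact (map_intCast (algebraMap OO ℂ) T).symm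
      · intro h0
        apply hdet
        have h1 := coe_jac P X'
        rw [h0] at h1
        exact h1.symm
      · obtain ⟨T, hT'⟩ := dsq n r P K e x
        refine ⟨T, ?_⟩
        apply Subtype.val_injective
        have h1 : (((jac P X').det ^ 2 : OO) : ℂ) = ((jac P X').det : ℂ) ^ 2 :=
          map_pow (algebraMap OO ℂ) (jac P X').det 2
        refine h1.trans ?_
        rw [coe_jac]
        refine hT'.trans ?_
        exact (map_intCast (algebraMap OO ℂ) T).symm
    have hyint : IsIntegral ℤ ((∑ i, (d i : 𝓞 K) * x i : 𝓞 K) : K) :=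
      (∑ i, (d i : 𝓞 K) * x i : 𝓞 K).2
    refine ⟨∑ i, (d i : 𝓞 K) * x i, hd2, minpoly.monic hyint, ?_, ?_⟩
    · have h1 := congrArg natDegree hd3
      rw [(minpoly.monic hyint).natDegree_map, natDegree_prod_of_monic _ _
        fun t _ => monic_X_sub_C _] at h1
      rw [h1]
      simp only [natDegree_X_sub_C, Finset.sum_const, Finset.card_univ, Fintype.card_fin,
        smul_eq_mul, mul_one]
    · refine ⟨(X', fun i => ⟨d i, Nat.lt_succ_of_le (hd1 i)⟩), ⟨hX, Set.mem_univ _⟩, ?_⟩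
      exact hd3.symm

end

end Pool.Agent.THX.H27
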